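import Pool.Agent.Helper63.QP2.St1

set_option autoImplicit false

open Filter Topology Matrix Set Metric MeasureTheory
open scoped ComplexConjugate ENNReal

namespace Pool.Agent.Helper76.QP2

open Pool.Agent.Helper63.QP2
open Pool.Agent.Helper35.PM (hs Mat SL IsDiscrete SurfaceGroup Adapted IsQF HolDisc pressureDist)
open Pool.Agent.Helper20.QD (Fuch cj IsSU D DD SS)
open Pool.Agent.Helper68.QC (nq Bel InvB Intw mob den)
open Pool.Agent.Helper68.QS (Intw2)
open Pool.Agent.Helper20.QP (Prim Cj TF FD sh ll StI StOP1 StNCL StCEN)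
open Pool.Agent.Helper17.QD (Sta cc pre Thk StFPC StOPN)

private theorem tr_inv (A : SL) : ((A⁻¹ : SL) : Mat).trace = (A : Mat).trace := by
  rw [Matrix.SpecialLinearGroup.coe_inv, Matrix.adjugate_fin_two, Matrix.trace_fin_two,
    Matrix.trace_fin_two]
  simp [add_comm]

private theorem tr_conj (A B : SL) : ((B * A * B⁻¹ : SL) : Mat).trace = (A : Mat).trace := by
  have h1 : ((B * A * B⁻¹ : SL) : Mat) = (B : Mat) * ((A * B⁻¹ : SL) : Mat) := by
    rw [mul_assoc]
    rfl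
  rw [h1, Matrix.trace_mul_comm]
  have h2 : ((A * B⁻¹ : SL) : Mat) * (B : Mat) = ((A * B⁻¹ * B : SL) : Mat) := rfl
  rw [h2, inv_mul_cancel_right]

private theorem f3 (A : SL) (ε : ℝ) (h : ll A < ε) : sh A ≤ Real.sinh (ε / 2) ^ 2 := by
  by_cases h0 : sh A ≤ 0
  · exact h0.trans (sq_nonneg _)
  push Not at h0
  have h1 : Real.sqrt (sh A) = Real.sinh (ll A / 2) := by
    unfold ll
    rw [mul_div_cancel_left₀ _ (two_ne_zero), Real.sinh_arsinh]
  have h2 : Real.sinh (ll A / 2) < Real.sinh (ε / 2) := Real.sinh_lt_sinh.2 (by linarith)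
  have h3 : sh A = Real.sqrt (sh A) ^ 2 := (Real.sq_sqrt h0.le).symm
  rw [h3]
  have h4 := Real.sqrt_nonneg (sh A)
  rw [h1] at h4 ⊢
  exact pow_le_pow_left₀ h4 h2.le 2

private theorem f4 (A : SL) (ε : ℝ) (he : 0 < ε) (h : ε ≤ ll A) :
    2 * Real.cosh (ε / 2) ≤ ‖(A : Mat).trace‖ := by
  have h1 : Real.sqrt (sh A) = Real.sinh (ll A / 2) := by
    unfold ll
    rw [mul_div_cancel_left₀ _ (two_ne_zero), Real.sinh_arsinh]
  have h2 : Real.sinh (ε / 2) ≤ Real.sqrt (sh A) := by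
    rw [h1]
    exact Real.sinh_le_sinh.2 (by linarith)
  have h3 : 0 < Real.sinh (ε / 2) := Real.sinh_pos_iff.2 (by linarith)
  have h4 : 0 < Real.sqrt (sh A) := lt_of_lt_of_le h3 h2
  have h5 : 0 < sh A := Real.sqrt_pos.1 h4
  have h6 : Real.sinh (ε / 2) ^ 2 ≤ sh A := by
    rw [← Real.sq_sqrt h5.le]
    exact pow_le_pow_left₀ h3.le h2 2
  have h7 := Real.cosh_sq (ε / 2)
  unfold sh at h6
  have h8 : (2 * Real.cosh (ε / 2)) ^ 2 ≤ ((A : Mat).trace.re) ^ 2 := by nlinarith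
  have h9 : 2 * Real.cosh (ε / 2) ≤ |(A : Mat).trace.re| := by
    have := sq_le_sq.1 h8
    have h10 := Real.cosh_pos (ε / 2)
    rwa [abs_of_pos (by positivity)] at this
  exact h9.trans (Complex.abs_re_le_norm _)

private theorem f5 (A : SL) (n : ℕ) (h : 2 ≤ ‖(A : Mat).trace‖) (hn : 1 ≤ n) :
    ‖(A : Mat).trace‖ ≤ ‖((A ^ n : SL) : Mat).trace‖ := by
  have hdet : (A : Mat) 0 0 * (A : Mat) 1 1 - (A : Mat) 0 1 * (A : Mat) 1 0 = 1 := by
    have := A.det_coe
    rwa [Matrix.det_fin_two] at this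
  have hch : (A : Mat) * (A : Mat) = (A : Mat).trace • (A : Mat) - 1 := by
    rw [Matrix.trace_fin_two]
    ext i j
    fin_cases i <;> fin_cases j <;>
      simp [Matrix.mul_apply, Fin.sum_univ_two] <;>
      first | ring1 | linear_combination -hdet
  have hrec : ∀ k : ℕ, ((A : Mat) ^ (k + 2)).trace
      = (A : Mat).trace * ((A : Mat) ^ (k + 1)).trace - ((A : Mat) ^ k).trace := by
    intro k
    have e1 : (A : Mat) ^ (k + 2) = (A : Mat) ^ k * ((A : Mat) * (A : Mat)) := by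
      rw [pow_succ, pow_succ, mul_assoc]
    rw [e1, hch, mul_sub, mul_one, Matrix.mul_smul, ← pow_succ, Matrix.trace_sub,
      Matrix.trace_smul, smul_eq_mul]
  have hstep : ∀ k : ℕ, ‖((A : Mat) ^ k).trace‖ ≤ ‖((A : Mat) ^ (k + 1)).trace‖ := by
    intro k
    induction k with
    | zero =>
      rw [pow_zero, zero_add, pow_one, Matrix.trace_one, Fintype.card_fin]
      simpa using h
    | succ k ih =>
      have e1 := hrec k
      have e2 : (A : Mat).trace * ((A : Mat) ^ (k + 1)).trace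
          = ((A : Mat) ^ (k + 2)).trace + ((A : Mat) ^ k).trace := by rw [e1]; ring
      have e3 : ‖(A : Mat).trace‖ * ‖((A : Mat) ^ (k + 1)).trace‖
          ≤ ‖((A : Mat) ^ (k + 2)).trace‖ + ‖((A : Mat) ^ k).trace‖ := by
        rw [← norm_mul, e2]
        exact norm_add_le _ _
      have e4 : 2 * ‖((A : Mat) ^ (k + 1)).trace‖
          ≤ ‖(A : Mat).trace‖ * ‖((A : Mat) ^ (k + 1)).trace‖ :=
        mul_le_mul_of_nonneg_right h (norm_nonneg _)
      show ‖((A : Mat) ^ (k + 1)).trace‖ ≤ ‖((A : Mat) ^ (k + 2)).trace‖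
      linarith
  have hmono : Monotone (fun k : ℕ => ‖((A : Mat) ^ k).trace‖) := monotone_nat_of_le_succ hstep
  have h1 := hmono hn
  simp only [pow_one] at h1
  rw [Matrix.SpecialLinearGroup.coe_pow]
  exact h1

theorem pLLF (hCEN : Pool.Agent.Helper20.QP.StCEN) : Pool.Agent.Helper63.QP2.StLLF := by
  refine ⟨?_, ?_, f3, f4, f5, ?_⟩
  · intro Γ _ σ α β h
    have key : ((σ α : SL) : Mat).trace = ((σ β : SL) : Mat).trace := by
      obtain ⟨γ, h | h⟩ := h
      · rw [← h, map_mul, map_mul, map_inv, tr_conj]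
      · have h1 : ((σ (β⁻¹) : SL) : Mat).trace = ((σ β : SL) : Mat).trace := by
          rw [map_inv, tr_inv]
        rw [← h1, ← h, map_mul, map_mul, map_inv, tr_conj]
    unfold ll sh
    rw [key]
  · intro Γ _ α β h
    obtain ⟨γ, h | h⟩ := h
    · exact ⟨γ⁻¹, Or.inl (by rw [← h]; group)⟩
    · refine ⟨γ⁻¹, Or.inr ?_⟩
      have h1 : β = (γ * α * γ⁻¹)⁻¹ := by rw [h, inv_inv]
      rw [h1]
      group
  · intro Γ _ σ ε hF hT he hP γ hγ
    obtain ⟨α0, n, h1, h2, h3⟩ := (hCEN Γ σ hF hT).1 γ hγ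
    have h4 := f4 (σ α0) ε he (hP α0 h1)
    have h5 : (2 : ℝ) ≤ ‖((σ α0 : SL) : Mat).trace‖ := by
      have := Real.one_le_cosh (ε / 2)
      linarith
    have h6 := f5 (σ α0) n h5 h2
    rw [h3, map_pow]
    linarith

end Pool.Agent.Helper76.QP2
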